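import Mathlib
import Pool.Agent.Helper802.JS.basis_proj

set_option autoImplicit false

/-!
A real Banach space with a `K`-unconditional Schauder basis, `K < 2`, fails the super alternative
Daugavet property. The case `K = 1` is the case of a 1-unconditional basis.
-/

open Filter Topology

namespace Pool.Agent.Results.MP_235f01_an.NoSuperADP

section defs

variable {X : Type*} [NormedAddCommGroup X] [NormedSpace ℝ X]

/-- `e` is a Schauder basis: every vector has a unique norm-convergent expansion `∑ a_i e_i`. -/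
def IsSchauderBasis (e : ℕ → X) : Prop :=
  ∀ x : X, ∃! a : ℕ → ℝ, Tendsto (fun n => ∑ i ∈ Finset.range n, a i • e i) atTop (𝓝 x)

/-- `e` is `K`-unconditional: changing the signs of the coefficients of a finite combination
increases its norm at most by the factor `K`. -/
def IsUnconditional (K : ℝ) (e : ℕ → X) : Prop :=
  ∀ (n : ℕ) (a : ℕ → ℝ) (s : ℕ → ℝ), (∀ i, s i = 1 ∨ s i = -1) →
    ‖∑ i ∈ Finset.range n, (s i * a i) • e i‖ ≤ K * ‖∑ i ∈ Finset.range n, a i • e i‖

/-- `W` is a relatively weakly open subset of the closed unit ball. -/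
def IsRelWeaklyOpen (W : Set X) : Prop :=
  ∃ U : Set (WeakSpace ℝ X), IsOpen U ∧ W = {y : X | ‖y‖ ≤ 1 ∧ toWeakSpace ℝ X y ∈ U}

/-- The super alternative Daugavet property of a real normed space: the space is
infinite-dimensional and for every `x` in the unit sphere and every nonempty relatively weakly
open subset `W` of the closed unit ball the supremum over `y ∈ W` of the maximum of `‖x + y‖` and
`‖x - y‖` is `2`. -/
def SuperADP (X : Type*) [NormedAddCommGroup X] [NormedSpace ℝ X] : Prop :=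
  ¬ FiniteDimensional ℝ X ∧ ∀ x : X, ‖x‖ = 1 → ∀ W : Set X, W.Nonempty → IsRelWeaklyOpen W →
    IsLUB {r : ℝ | ∃ y ∈ W, r = max ‖x + y‖ ‖x - y‖} 2

end defs

section proof

variable {X : Type*} [NormedAddCommGroup X] [NormedSpace ℝ X]

/-- coordinate functionals of a basis -/
lemma exists_coord [CompleteSpace X] {e : ℕ → X} (he : IsSchauderBasis e) :
    ∃ f : ℕ → X →L[ℝ] ℝ, (∀ i j, f i (e j) = if i = j then 1 else 0) ∧
      ∀ x, Tendsto (fun n => ∑ i ∈ Finset.range n, f i x • e i) atTop (𝓝 x) := by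
  obtain ⟨P, C, hP0, hPC, hPP, hPt, hPd⟩ := Pool.Agent.Helper802.JB.N_basis_proj.basis_proj e he
  have hne0 : ∀ k, e k ≠ 0 := by
    intro k hk
    have h1 : Tendsto (fun m => ∑ i ∈ Finset.range m, (0 : ℕ → ℝ) i • e i) atTop (𝓝 0) := by
      simp
    have h2 : Tendsto (fun m => ∑ i ∈ Finset.range m, (Pi.single k (1:ℝ) : ℕ → ℝ) i • e i)
        atTop (𝓝 0) := by
      have : ∀ m, ∑ i ∈ Finset.range m, (Pi.single k (1:ℝ) : ℕ → ℝ) i • e i = 0 := by
        intro m
        apply Finset.sum_eq_zero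
        intro i _
        by_cases hik : i = k
        · subst hik; simp [hk]
        · simp [hik]
      simp [this]
    have h3 := (he 0).unique h1 h2
    have h4 := congrFun h3 k
    simp at h4
  have hphi : ∀ k, ∃ g : X →L[ℝ] ℝ, g (e k) = 1 := by
    intro k
    obtain ⟨g, -, hg⟩ := exists_dual_vector ℝ (e k) (norm_ne_zero_iff.mpr (hne0 k))
    refine ⟨‖e k‖⁻¹ • g, ?_⟩
    rw [smul_apply, hg]
    simp [hne0 k]
  choose g hg using hphi
  let f : ℕ → X →L[ℝ] ℝ := fun k => (g k).comp (P (k + 1) - P k)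
  have hf : ∀ k x, P (k + 1) x - P k x = f k x • e k := by
    intro k x
    obtain ⟨c, hc⟩ := hPd k x
    have : f k x = c := by
      show g k (P (k + 1) x - P k x) = c
      rw [hc, map_smul, hg]; simp
    rw [this, hc]
  have hsum : ∀ n x, P n x = ∑ i ∈ Finset.range n, f i x • e i := by
    intro n x
    induction n with
    | zero => simp [hP0]
    | succ n ih => rw [Finset.sum_range_succ, ← ih, ← hf]; abel
  have hT : ∀ x, Tendsto (fun n => ∑ i ∈ Finset.range n, f i x • e i) atTop (𝓝 x) := by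
    intro x
    exact (hPt x).congr (fun n => hsum n x)
  refine ⟨f, ?_, hT⟩
  intro i j
  have h2 : Tendsto (fun m => ∑ k ∈ Finset.range m, (Pi.single j (1:ℝ) : ℕ → ℝ) k • e k)
      atTop (𝓝 (e j)) := by
    apply tendsto_const_nhds.congr'
    filter_upwards [eventually_gt_atTop j] with m hm
    rw [Finset.sum_eq_single j]
    · simp
    · intro k _ hk; simp [hk]
    · intro h; exact absurd (Finset.mem_range.mpr hm) h
  have h3 : (fun k => f k (e j)) = Pi.single j 1 := (he (e j)).unique (hT (e j)) h2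
  have h4 := congrFun h3 i
  rw [h4, Pi.single_apply]

/-- suppression of coordinates -/
lemma suppress {e : ℕ → X} {K : ℝ} (hu : IsUnconditional K e) (A : Set ℕ) [DecidablePred (· ∈ A)]
    (n : ℕ) (a : ℕ → ℝ) :
    ‖∑ i ∈ Finset.range n, (if i ∈ A then a i else 0) • e i‖ ≤
      (1 + K) / 2 * ‖∑ i ∈ Finset.range n, a i • e i‖ := by
  have h := hu n a (fun i => if i ∈ A then 1 else -1) (fun i => by by_cases h : i ∈ A <;> simp [h])
  have e1 : ∑ i ∈ Finset.range n, (if i ∈ A then a i else 0) • e i =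
      (1 / 2 : ℝ) • (∑ i ∈ Finset.range n, a i • e i +
        ∑ i ∈ Finset.range n, ((if i ∈ A then 1 else -1) * a i) • e i) := by
    rw [← Finset.sum_add_distrib, Finset.smul_sum]
    apply Finset.sum_congr rfl
    intro i _
    rw [← add_smul, smul_smul]
    congr 1
    by_cases h : i ∈ A <;> simp [h]
    ring
  rw [e1, norm_smul]
  have h2 := norm_add_le (∑ i ∈ Finset.range n, a i • e i)
    (∑ i ∈ Finset.range n, ((if i ∈ A then 1 else -1) * a i) • e i)
  rw [Real.norm_of_nonneg (by norm_num : (0:ℝ) ≤ 1 / 2)]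
  linarith

/-- suppression of coordinates for infinite expansions -/
lemma suppress_lim {e : ℕ → X} {K : ℝ} (hu : IsUnconditional K e) {f : ℕ → X →L[ℝ] ℝ}
    (hT : ∀ x, Tendsto (fun n => ∑ i ∈ Finset.range n, f i x • e i) atTop (𝓝 x))
    (A : Set ℕ) [DecidablePred (· ∈ A)] (w w' : X) (h1 : ∀ i ∈ A, f i w' = f i w)
    (h2 : ∀ i ∉ A, f i w' = 0) : ‖w'‖ ≤ (1 + K) / 2 * ‖w‖ := by
  have a1 := (hT w').norm
  have a2 := ((hT w).norm).const_mul ((1 + K) / 2)
  refine le_of_tendsto_of_tendsto' a1 a2 (fun n => ?_)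
  have e1 : ∑ i ∈ Finset.range n, f i w' • e i =
      ∑ i ∈ Finset.range n, (if i ∈ A then f i w else 0) • e i := by
    apply Finset.sum_congr rfl
    intro i _
    by_cases h : i ∈ A
    · rw [h1 i h, if_pos h]
    · rw [h2 i h, if_neg h]
  rw [e1]
  exact suppress hu A n (fun i => f i w)

lemma weakOpen_coord (f : ℕ → X →L[ℝ] ℝ) (N : ℕ) (b : ℕ → ℝ) (δ : ℝ) :
    IsRelWeaklyOpen {y : X | ‖y‖ ≤ 1 ∧ ∀ i ∈ Finset.range N, |f i y - b i| < δ} := by
  refine ⟨⋂ i ∈ Finset.range N, {z : WeakSpace ℝ X | |f i ((toWeakSpace ℝ X).symm z) - b i| < δ},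
    ?_, ?_⟩
  · apply isOpen_biInter_finset
    intro i _
    have hc : Continuous (fun z : WeakSpace ℝ X => f i ((toWeakSpace ℝ X).symm z)) :=
      WeakBilin.eval_continuous (topDualPairing ℝ X).flip (f i)
    exact isOpen_lt ((hc.sub continuous_const).abs) continuous_const
  · ext y
    simp

end proof

/-- No real Banach space with a `K`-unconditional Schauder basis, `K < 2`, has the super
alternative Daugavet property. In particular (`K = 1`) no Banach space with a 1-unconditional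
basis has it. -/
theorem result (X : Type*) [NormedAddCommGroup X] [NormedSpace ℝ X] [CompleteSpace X]
    (e : ℕ → X) (he : IsSchauderBasis e) (K : ℝ) (hK : K < 2) (hu : IsUnconditional K e) :
    ¬ SuperADP X := by
  rintro ⟨-, hS⟩
  obtain ⟨f, hfe, hT⟩ := exists_coord he
  have he0 : e 0 ≠ 0 := by
    intro h
    have := hfe 0 0
    rw [h, map_zero] at this
    norm_num at this
  have hn0 : 0 < ‖e 0‖ := norm_pos_iff.mpr he0
  -- K ≥ 1
  have hK1 : 1 ≤ K := by
    have h := hu 1 (fun _ => 1) (fun _ => 1) (fun _ => Or.inl rfl)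
    simp at h
    by_contra hlt
    push Not at hlt
    nlinarith
  set C := (1 + K) / 2 with hC
  have hC1 : 1 ≤ C := by rw [hC]; linarith
  have hC2 : C < 3 / 2 := by rw [hC]; linarith
  set η := min (1 / 100) ((3 / 2 - C) / 20) with hη
  have hη0 : 0 < η := by
    rw [hη]; apply lt_min (by norm_num); linarith
  have hη1 : η ≤ 1 / 100 := min_le_left _ _
  have hη2 : η ≤ (3 / 2 - C) / 20 := min_le_right _ _
  -- Step 1
  set u := ‖e 0‖⁻¹ • e 0 with hu_def
  have hun : ‖u‖ = 1 := by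
    rw [hu_def, norm_smul, norm_inv, norm_norm]
    exact inv_mul_cancel₀ hn0.ne'
  have hfu : ∀ i, i ≠ 0 → f i u = 0 := by
    intro i hi
    rw [hu_def, map_smul, hfe, if_neg hi, smul_zero]
  have hW1 := hS u hun {y : X | ‖y‖ ≤ 1 ∧ ∀ i ∈ Finset.range 1, |f i y - 0| < η / ‖e 0‖}
    ⟨0, by simp, fun i _ => by simpa using div_pos hη0 hn0⟩
    (weakOpen_coord f 1 (fun _ => 0) (η / ‖e 0‖))
  obtain ⟨r, ⟨y₁, ⟨hy1, hy2⟩, rfl⟩, hr, -⟩ := hW1.exists_between (show 2 - η < 2 by linarith)
  have hy3 : |f 0 y₁| * ‖e 0‖ < η := by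
    have := hy2 0 (by simp)
    rw [sub_zero, lt_div_iff₀ hn0] at this
    exact this
  obtain ⟨θ, hθ, hθ2⟩ : ∃ θ : ℝ, |θ| = 1 ∧ 2 - η < ‖u + θ • y₁‖ := by
    rcases lt_max_iff.mp hr with h | h
    · exact ⟨1, by simp, by simpa using h⟩
    · exact ⟨-1, by simp, by simpa [sub_eq_add_neg] using h⟩
  set v' := θ • (y₁ - f 0 y₁ • e 0) with hv'
  have hv'n : ‖v'‖ ≤ 1 + η := by
    rw [hv', norm_smul, Real.norm_eq_abs, hθ, one_mul]
    refine (norm_sub_le _ _).trans ?_
    rw [norm_smul, Real.norm_eq_abs]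
    linarith
  have huv' : 2 - 2 * η < ‖u + v'‖ := by
    have e1 : u + θ • y₁ = (u + v') + (θ * f 0 y₁) • e 0 := by
      rw [hv', smul_sub, smul_smul]; abel
    have h2 := norm_add_le (u + v') ((θ * f 0 y₁) • e 0)
    rw [← e1, norm_smul, Real.norm_eq_abs, abs_mul, hθ, one_mul] at h2
    linarith
  have hv'0 : f 0 v' = 0 := by
    rw [hv', map_smul, map_sub, map_smul, hfe]; simp
  -- truncation
  obtain ⟨N, hN1, hN⟩ : ∃ N, 1 ≤ N ∧ ‖v' - ∑ i ∈ Finset.range N, f i v' • e i‖ < η := by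
    have h1 := hT v'
    rw [Metric.tendsto_atTop] at h1
    obtain ⟨N, hN⟩ := h1 η hη0
    refine ⟨max N 1, le_max_right _ _, ?_⟩
    have := hN (max N 1) (le_max_left _ _)
    rwa [dist_eq_norm, norm_sub_rev] at this
  set v := ∑ i ∈ Finset.range N, f i v' • e i with hv
  have hvn : ‖v‖ ≤ 1 + 2 * η := by
    have : v = v' - (v' - v) := by abel
    rw [this]
    refine (norm_sub_le _ _).trans ?_
    linarith
  have huv : 2 - 3 * η < ‖u + v‖ := by
    have e1 : u + v' = (u + v) + (v' - v) := by abel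
    have h2 := norm_add_le (u + v) (v' - v)
    rw [← e1] at h2
    linarith
  have hfv : ∀ i, f i v = if i < N then f i v' else 0 := by
    intro i
    rw [hv, map_sum]
    simp only [map_smul, hfe, smul_eq_mul, mul_ite, mul_one, mul_zero]
    rw [Finset.sum_ite_eq]
    simp [Finset.mem_range]
  have hfv0 : f 0 v = 0 := by
    rw [hfv, hv'0]; simp
  set c := ‖u + v‖ with hc
  have hc_up : c ≤ 2 + 2 * η := by
    rw [hc]; refine (norm_add_le _ _).trans ?_; linarith
  have hc0 : 0 < c := by linarith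
  set d := 2 + 2 * η with hd
  have hd0 : 0 < d := by linarith
  set x := c⁻¹ • (u + v) with hx
  have hxn : ‖x‖ = 1 := by
    rw [hx, norm_smul, norm_inv, Real.norm_of_nonneg hc0.le, ← hc]
    exact inv_mul_cancel₀ hc0.ne'
  set y₀ := d⁻¹ • (u - v) with hy₀
  have hy₀n : ‖y₀‖ ≤ 1 := by
    rw [hy₀, norm_smul, norm_inv, Real.norm_of_nonneg hd0.le]
    rw [inv_mul_le_iff₀ hd0, mul_one]
    refine (norm_sub_le _ _).trans ?_
    rw [hd]; linarith
  -- Step 2
  set δ := η / (1 + ∑ i ∈ Finset.range N, ‖e i‖) with hδ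
  have hsumpos : 0 < 1 + ∑ i ∈ Finset.range N, ‖e i‖ := by positivity
  have hδ0 : 0 < δ := by rw [hδ]; positivity
  have hW2 := hS x hxn {y : X | ‖y‖ ≤ 1 ∧ ∀ i ∈ Finset.range N, |f i y - f i y₀| < δ}
    ⟨y₀, hy₀n, fun i _ => by simpa using hδ0⟩
    (weakOpen_coord f N (fun i => f i y₀) δ)
  obtain ⟨r, ⟨y, ⟨hyn, hyf⟩, rfl⟩, hr2, -⟩ := hW2.exists_between (show 2 - η < 2 by linarith)
  set z := y - ∑ i ∈ Finset.range N, f i y • e i with hz
  set g := ∑ i ∈ Finset.range N, f i y • e i - y₀ with hg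
  have hy₀sum : y₀ = ∑ i ∈ Finset.range N, f i y₀ • e i := by
    have h1 := hT y₀
    have h2 : Tendsto (fun n => ∑ i ∈ Finset.range n, f i y₀ • e i) atTop
        (𝓝 (∑ i ∈ Finset.range N, f i y₀ • e i)) := by
      apply tendsto_const_nhds.congr'
      filter_upwards [eventually_ge_atTop N] with m hm
      apply Finset.sum_subset (Finset.range_subset_range.mpr hm)
      intro i _ hi
      have hi' : N ≤ i := by simpa using hi
      have : f i y₀ = 0 := by
        rw [hy₀, map_smul, map_sub, hfu i (by omega), hfv, if_neg (by omega)]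
        simp
      rw [this, zero_smul]
    exact tendsto_nhds_unique h1 h2
  have hgn : ‖g‖ ≤ η := by
    have e1 : g = ∑ i ∈ Finset.range N, (f i y - f i y₀) • e i := by
      rw [hg]
      nth_rewrite 1 [hy₀sum]
      rw [← Finset.sum_sub_distrib]
      apply Finset.sum_congr rfl
      intro i _
      rw [sub_smul]
    rw [e1]
    refine (norm_sum_le _ _).trans ?_
    calc ∑ i ∈ Finset.range N, ‖(f i y - f i y₀) • e i‖
        ≤ ∑ i ∈ Finset.range N, δ * ‖e i‖ := by
          apply Finset.sum_le_sum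
          intro i hi
          rw [norm_smul, Real.norm_eq_abs]
          exact mul_le_mul_of_nonneg_right (hyf i hi).le (norm_nonneg _)
      _ = δ * ∑ i ∈ Finset.range N, ‖e i‖ := by rw [Finset.mul_sum]
      _ ≤ δ * (1 + ∑ i ∈ Finset.range N, ‖e i‖) :=
          mul_le_mul_of_nonneg_left (by linarith) hδ0.le
      _ = η := by rw [hδ]; field_simp
  have hyeq : y = y₀ + z + g := by rw [hz, hg]; abel
  have hwn : ‖y₀ + z‖ ≤ 1 + η := by
    have : y₀ + z = y - g := by rw [hyeq]; abel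
    rw [this]
    refine (norm_sub_le _ _).trans ?_
    linarith
  -- coordinates of z
  have hfz : ∀ i, i < N → f i z = 0 := by
    intro i hi
    rw [hz, map_sub, map_sum]
    simp only [map_smul, hfe, smul_eq_mul, mul_ite, mul_one, mul_zero]
    rw [Finset.sum_ite_eq]
    simp [hi]
  have hsupp_u : ‖d⁻¹ • u + z‖ ≤ C * (1 + η) := by
    refine le_trans ?_ (mul_le_mul_of_nonneg_left hwn (by linarith))
    classical
    apply suppress_lim hu hT {i | i = 0 ∨ N ≤ i}
    · rintro i (hi | hi)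
      · subst hi
        have h1 : f 0 y₀ = d⁻¹ • f 0 u := by
          rw [hy₀, map_smul, map_sub, hfv0, sub_zero]
        rw [map_add, map_add, hfz 0 (by omega), h1, map_smul]
      · have h1 : f i y₀ = 0 := by
          rw [hy₀, map_smul, map_sub, hfu i (by omega), hfv, if_neg (by omega)]
          simp
        rw [map_add, map_add, h1, map_smul, hfu i (by omega)]
        simp
    · intro i hi
      simp only [Set.mem_ofPred_eq, not_or, not_le] at hi
      rw [map_add, map_smul, hfu i hi.1, hfz i hi.2]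
      simp
  have hsupp_v : ‖d⁻¹ • v - z‖ ≤ C * (1 + η) := by
    have e1 : ‖d⁻¹ • v - z‖ = ‖-(d⁻¹ • v) + z‖ := by
      rw [← norm_neg]; congr 1; abel
    rw [e1]
    refine le_trans ?_ (mul_le_mul_of_nonneg_left hwn (by linarith))
    classical
    apply suppress_lim hu hT {i | i ≠ 0}
    · intro i hi
      have hi' : i ≠ 0 := hi
      have h1 : f i y₀ = -(d⁻¹ • f i v) := by
        rw [hy₀, map_smul, map_sub, hfu i hi', zero_sub, smul_neg]
      rw [map_add, map_add, h1, map_neg, map_smul]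
    · intro i hi
      have hi' : i = 0 := by simpa using hi
      subst hi'
      rw [map_add, map_neg, map_smul, hfv0, hfz 0 (by omega)]
      simp
  have hci : c⁻¹ ≤ 1 / 2 + 4 * η := by
    rw [inv_le_comm₀ hc0 (by linarith)]
    have : (1 / 2 + 4 * η)⁻¹ ≤ 2 - 3 * η := by
      rw [inv_le_comm₀ (by linarith) (by linarith), ← one_div, div_le_iff₀ (by linarith)]
      nlinarith
    linarith
  have hcd : |c⁻¹ - d⁻¹| ≤ 2 * η := by
    have h1 : c⁻¹ - d⁻¹ = (d - c) / (c * d) := by
      field_simp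
    rw [h1, abs_of_nonneg (div_nonneg (by linarith) (by positivity)), div_le_iff₀ (by positivity)]
    have h3 : 3.8 ≤ c * d := by
      have : (1.96 : ℝ) ≤ c := by linarith
      have : (2 : ℝ) ≤ d := by linarith
      nlinarith
    nlinarith
  -- final estimates
  have hplus : ‖x + y‖ ≤ 2 - η := by
    have e1 : x + y = c⁻¹ • u + (c⁻¹ - d⁻¹) • v + (d⁻¹ • u + z) + g := by
      rw [hyeq, hx, hy₀, smul_add, smul_sub, sub_smul]; abel
    rw [e1]
    have t1 := norm_add_le (c⁻¹ • u + (c⁻¹ - d⁻¹) • v + (d⁻¹ • u + z)) g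
    have t2 := norm_add_le (c⁻¹ • u + (c⁻¹ - d⁻¹) • v) (d⁻¹ • u + z)
    have t3 := norm_add_le (c⁻¹ • u) ((c⁻¹ - d⁻¹) • v)
    have t4 : ‖c⁻¹ • u‖ = c⁻¹ := by
      rw [norm_smul, hun, mul_one, norm_inv, Real.norm_of_nonneg hc0.le]
    have t5 : ‖(c⁻¹ - d⁻¹) • v‖ ≤ 3 * η := by
      rw [norm_smul, Real.norm_eq_abs]
      have h1 := mul_le_mul hcd hvn (norm_nonneg _) (by linarith)
      have h2 : 2 * η * (1 + 2 * η) ≤ 3 * η := by nlinarith
      linarith
    have h3 : C * (1 + η) ≤ C + 2 * η := by nlinarith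
    linarith
  have hminus : ‖x - y‖ ≤ 2 - η := by
    have e1 : x - y = c⁻¹ • v + (c⁻¹ - d⁻¹) • u + (d⁻¹ • v - z) - g := by
      rw [hyeq, hx, hy₀, smul_add, smul_sub, sub_smul]; abel
    rw [e1]
    have t1 := norm_sub_le (c⁻¹ • v + (c⁻¹ - d⁻¹) • u + (d⁻¹ • v - z)) g
    have t2 := norm_add_le (c⁻¹ • v + (c⁻¹ - d⁻¹) • u) (d⁻¹ • v - z)
    have t3 := norm_add_le (c⁻¹ • v) ((c⁻¹ - d⁻¹) • u)
    have t4 : ‖c⁻¹ • v‖ ≤ c⁻¹ + 2 * η := by
      rw [norm_smul, norm_inv, Real.norm_of_nonneg hc0.le]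
      have hci0 : 0 < c⁻¹ := inv_pos.mpr hc0
      have h1 := mul_le_mul_of_nonneg_left hvn hci0.le
      have h2 : c⁻¹ * (1 + 2 * η) ≤ c⁻¹ + 2 * η := by nlinarith
      linarith
    have t5 : ‖(c⁻¹ - d⁻¹) • u‖ ≤ 2 * η := by
      rw [norm_smul, Real.norm_eq_abs, hun, mul_one]
      exact hcd
    have h3 : C * (1 + η) ≤ C + 2 * η := by nlinarith
    linarith
  have := max_le hplus hminus
  linarith

end Pool.Agent.Results.MP_235f01_an.NoSuperADP
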